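import Pool.Agent.H.MP_a2f955_an.D

open MeasureTheory Pool.Agent.H.MP_a2f955_an

namespace Pool.Agent.Results.MP_f4ec25_an.Main

theorem result (A : ENNReal) (_hA : 0 < A) (f : ℝ → ℂ) (hR : InR A f)
    (hm : AEMeasurable f (volume.restrict (Iv A))) :
    ∃ F : ℝ → ℂ, (∀ l ∈ Iv A, F l = f l) ∧ AEMeasurable F volume ∧ InR ⊤ F ∧
      nrm ⊤ F = nrm A f :=
  ext_norm hR hm

end Pool.Agent.Results.MP_f4ec25_an.Main
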